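import Mathlib

set_option autoImplicit false

namespace Pool.Agent.H60.CP

open Set

/-- A well ordered type of order type `ω₁`: uncountable, all proper initial segments countable. -/
class OmegaOne (W : Type) [LinearOrder W] : Prop where
  wf : WellFoundedLT W
  cIio : ∀ w : W, (Set.Iio w).Countable
  unc : ¬ (Set.univ : Set W).Countable

attribute [instance] OmegaOne.wf

section
variable {W : Type} [LinearOrder W] [OmegaOne W]

theorem cIic (w : W) : (Set.Iic w).Countable := by
  have : Set.Iic w = Set.Iio w ∪ {w} := by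
    ext x; simp [le_iff_lt_or_eq]
  rw [this]
  exact (OmegaOne.cIio w).union (Set.countable_singleton w)

theorem bdd {C : Set W} (hC : C.Countable) : ∃ w : W, ∀ c ∈ C, c < w := by
  by_contra h
  push Not at h
  apply OmegaOne.unc (W := W)
  have : (Set.univ : Set W) ⊆ ⋃ c ∈ C, Set.Iic c := by
    intro w _
    obtain ⟨c, hc, hwc⟩ := h w
    simp only [Set.mem_iUnion]
    exact ⟨c, hc, hwc⟩
  exact (hC.biUnion (fun c _ => cIic c)).mono this

theorem exists_gt_of_unc {C : Set W} (hC : ¬ C.Countable) (w : W) : ∃ c ∈ C, w < c := by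
  by_contra h
  push Not at h
  exact hC ((cIic w).mono (fun c hc => h c hc))

/-- An uncountable set minus a countable one is nonempty. -/
theorem exists_diff {α : Type*} {C D : Set α} (hC : ¬ C.Countable) (hD : D.Countable) :
    ∃ c ∈ C, c ∉ D := by
  by_contra h
  push Not at h
  exact hC (hD.mono h)

theorem pig {α β : Type*} [Countable β] {C : Set α} (hC : ¬ C.Countable) (g : α → β) :
    ∃ b : β, ¬ {c | c ∈ C ∧ g c = b}.Countable := by
  by_contra h
  push Not at h
  apply hC
  have : C ⊆ ⋃ b : β, {c | c ∈ C ∧ g c = b} := by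
    intro c hc
    rw [Set.mem_iUnion]
    exact ⟨g c, hc, rfl⟩
  exact (Set.countable_iUnion h).mono this

/-- The tuple version of the Delta system lemma. -/
theorem delta {α I : Type*} (s : Finset I) {C : Set α} (hC : ¬ C.Countable)
    {V : Type*} (t : α → I → V) :
    ∃ D ⊆ C, ¬ D.Countable ∧ ∀ i ∈ s, (∃ v, ∀ x ∈ D, t x i = v) ∨
      (∀ v, {x | x ∈ D ∧ t x i = v}.Countable) := by
  classical
  induction s using Finset.induction_on with
  | empty => exact ⟨C, subset_rfl, hC, by simp⟩
  | insert i s _ ih =>
    obtain ⟨D, hDC, hD, hs⟩ := ih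
    by_cases h : ∀ v, {x | x ∈ D ∧ t x i = v}.Countable
    · refine ⟨D, hDC, hD, ?_⟩
      intro j hj
      rcases Finset.mem_insert.1 hj with rfl | hj
      · exact Or.inr h
      · exact hs j hj
    · push Not at h
      obtain ⟨v, hv⟩ := h
      refine ⟨{x | x ∈ D ∧ t x i = v}, ?_, hv, ?_⟩
      · intro x hx
        exact hDC hx.1
      intro j hj
      rcases Finset.mem_insert.1 hj with rfl | hj
      · exact Or.inl ⟨v, fun x hx => hx.2⟩
      · rcases hs j hj with ⟨u, hu⟩ | hu
        · exact Or.inl ⟨u, fun x hx => hu x hx.1⟩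
        · refine Or.inr (fun u => (hu u).mono ?_)
          intro x hx
          exact ⟨hx.1.1, hx.2⟩

/-- Definition by well founded recursion. -/
theorem wfrec {Y : Type*} [Nonempty Y] (P : W → (W → Y) → Y → Prop)
    (hcongr : ∀ w g g' y, (∀ v, v < w → g v = g' v) → P w g y → P w g' y)
    (hex : ∀ w g, ∃ y, P w g y) : ∃ f : W → Y, ∀ w, P w f (f w) := by
  classical
  let y0 : Y := Classical.arbitrary Y
  let ext : (w : W) → ((v : W) → v < w → Y) → W → Y :=
    fun w g v => if h : v < w then g v h else y0
  let f : W → Y := IsWellFounded.fix (α := W) (· < ·)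
    (fun w g => Classical.choose (hex w (ext w g)))
  refine ⟨f, fun w => ?_⟩
  have hf : f w = Classical.choose (hex w (ext w (fun v _ => f v))) :=
    IsWellFounded.fix_eq (α := W) (· < ·) _ w
  have h1 := Classical.choose_spec (hex w (ext w (fun v _ => f v)))
  rw [← hf] at h1
  refine hcongr w _ _ _ ?_ h1
  intro v hv
  simp [ext, hv]

end

end Pool.Agent.H60.CP
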