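import Pool.Agent.H60.CP.Key

set_option autoImplicit false

namespace Pool.Agent.H60.CP

open Set Filter Topology

/-- Kuratowski–Ulam (the easy half). -/
theorem ku {Y : Type} [TopologicalSpace Y] (A : Set (Y × (ℕ → Bool))) (hA : IsMeagre A) :
    IsMeagre {y | ¬ IsMeagre {z | (y, z) ∈ A}} := by
  obtain ⟨S, hS1, hS2, hS3⟩ := isMeagre_iff_countable_union_isNowhereDense.1 hA
  have hstep : ∀ t ∈ S, IsMeagre {y | ¬ IsNowhereDense {z : ℕ → Bool | (y, z) ∈ t}} := by
    intro t ht
    have hsub : {y | ¬ IsNowhereDense {z : ℕ → Bool | (y, z) ∈ t}} ⊆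
        ⋃ B ∈ TopologicalSpace.countableBasis (ℕ → Bool), {y | ∀ z ∈ B, (y, z) ∈ closure t} := by
      intro y hy
      have hcl : IsClosed {z : ℕ → Bool | (y, z) ∈ closure t} :=
        isClosed_closure.preimage (Continuous.prodMk_right y)
      have h1 : closure {z : ℕ → Bool | (y, z) ∈ t} ⊆ {z | (y, z) ∈ closure t} :=
        closure_minimal (fun z hz => subset_closure hz) hcl
      have h2 : (interior (closure {z : ℕ → Bool | (y, z) ∈ t})).Nonempty := by
        rw [Set.nonempty_iff_ne_empty]
        exact hy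
      obtain ⟨z, hz⟩ := h2
      obtain ⟨B, hB, hzB, hB2⟩ := (TopologicalSpace.isBasis_countableBasis
        (ℕ → Bool)).exists_subset_of_mem_open hz isOpen_interior
      rw [Set.mem_iUnion₂]
      exact ⟨B, hB, fun z' hz' => h1 (interior_subset (hB2 hz'))⟩
    refine IsMeagre.mono hsub ?_
    refine isMeagre_biUnion (TopologicalSpace.countable_countableBasis _) (fun B hB => ?_)
    apply IsNowhereDense.isMeagre
    have hcl : IsClosed {y | ∀ z ∈ B, (y, z) ∈ closure t} := by
      have : {y | ∀ z ∈ B, (y, z) ∈ closure t} = ⋂ z ∈ B, {y | (y, z) ∈ closure t} := by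
        ext y
        simp only [Set.mem_ofPred_eq, Set.mem_iInter]
      rw [this]
      exact isClosed_biInter (fun z _ => isClosed_closure.preimage (Continuous.prodMk_left z))
    rw [hcl.isNowhereDense_iff]
    rw [Set.eq_empty_iff_forall_notMem]
    intro y hy
    have hBo := TopologicalSpace.isOpen_of_mem_countableBasis hB
    obtain ⟨z, hz⟩ := TopologicalSpace.nonempty_of_mem_countableBasis hB
    have h3 : (y, z) ∈ interior (closure t) := by
      rw [mem_interior]
      refine ⟨interior {y | ∀ z ∈ B, (y, z) ∈ closure t} ×ˢ B, ?_, isOpen_interior.prod hBo, ⟨hy, hz⟩⟩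
      rintro ⟨y', z'⟩ ⟨h1, h2⟩
      exact interior_subset h1 z' h2
    have h4 : interior (closure t) = ∅ := hS1 t ht
    rw [h4] at h3
    exact h3
  have hsub : {y | ¬ IsMeagre {z | (y, z) ∈ A}} ⊆
      ⋃ t ∈ S, {y | ¬ IsNowhereDense {z : ℕ → Bool | (y, z) ∈ t}} := by
    intro y hy
    by_contra hcon
    simp only [Set.mem_iUnion, not_exists] at hcon
    apply hy
    have hsub2 : {z | (y, z) ∈ A} ⊆ ⋃ t ∈ S, {z : ℕ → Bool | (y, z) ∈ t} := by
      intro z hz
      obtain ⟨t, ht, hzt⟩ := hS3 hz
      rw [Set.mem_iUnion₂]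
      exact ⟨t, ht, hzt⟩
    refine IsMeagre.mono hsub2 (isMeagre_biUnion hS2 (fun t ht => ?_))
    have := hcon t ht
    exact (not_not.1 this).isMeagre
  exact IsMeagre.mono hsub (isMeagre_biUnion hS2 hstep)

/-- snoc as a homeomorphism -/
def snocHomeo (l : ℕ) : ((Fin l → ℕ → Bool) × (ℕ → Bool)) ≃ₜ (Fin (l + 1) → ℕ → Bool) where
  toFun p := Fin.snoc (α := fun _ => ℕ → Bool) p.1 p.2
  invFun z := (fun i => z i.castSucc, z (Fin.last l))
  left_inv p := by simp
  right_inv z := by
    funext i
    refine Fin.lastCases ?_ (fun j => ?_) i <;> simp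
  continuous_toFun := Continuous.finSnoc (A := fun _ => ℕ → Bool) continuous_fst continuous_snd
  continuous_invFun := by
    refine Continuous.prodMk ?_ (continuous_apply _)
    exact continuous_pi (fun i => continuous_apply _)

/-- currying homeomorphism -/
def powHomeo (l : ℕ) (e : Fin (l + 1) × ℕ ≃ ℕ) : (Fin (l + 1) → ℕ → Bool) ≃ₜ (ℕ → Bool) where
  toFun z := fun n => z (e.symm n).1 (e.symm n).2
  invFun w := fun i m => w (e (i, m))
  left_inv z := by
    funext i m
    simp
  right_inv w := by
    funext n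
    simp
  continuous_toFun := by
    refine continuous_pi (fun n => ?_)
    exact (continuous_apply _).comp (continuous_apply _)
  continuous_invFun := by
    refine continuous_pi (fun i => continuous_pi (fun m => ?_))
    exact continuous_apply _

section
variable {W : Type} [LinearOrder W] [OmegaOne W]

/-- The meagre ideal of the Cantor set has a cofinal family indexed by `W`. -/
def CofM (W : Type) : Prop :=
  ∃ A : W → Set (ℕ → Bool), (∀ i, IsMeagre (A i)) ∧ ∀ B, IsMeagre B → ∃ i, B ⊆ A i

theorem luz_of_cof (h : CofM W) : ∃ c : W → ℕ → Bool, Luz c := by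
  classical
  obtain ⟨A, hA1, hA2⟩ := h
  have heq : ∀ l : ℕ, Nonempty (Fin (l + 1) × ℕ ≃ ℕ) := fun l => nonempty_equiv_of_countable
  let eqv : (l : ℕ) → (Fin (l + 1) × ℕ ≃ ℕ) := fun l => Classical.choice (heq l)
  let B : (l : ℕ) → W → Set (Fin (l + 1) → ℕ → Bool) := fun l i => (powHomeo l (eqv l)) ⁻¹' (A i)
  have hB1 : ∀ l i, IsMeagre (B l i) := fun l i =>
    (hA1 i).preimage_of_isOpenMap (powHomeo l (eqv l)).continuous (powHomeo l (eqv l)).isOpenMap
  have hB2 : ∀ l (C : Set (Fin (l + 1) → ℕ → Bool)), IsMeagre C → ∃ i, C ⊆ B l i := by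
    intro l C hC
    have h1 : IsMeagre ((powHomeo l (eqv l)).symm ⁻¹' C) :=
      hC.preimage_of_isOpenMap (powHomeo l (eqv l)).symm.continuous
        (powHomeo l (eqv l)).symm.isOpenMap
    obtain ⟨i, hi⟩ := hA2 _ h1
    refine ⟨i, fun z hz => ?_⟩
    apply hi
    change (powHomeo l (eqv l)).symm ((powHomeo l (eqv l)) z) ∈ C
    rw [Homeomorph.symm_apply_apply]
    exact hz
  -- the recursion
  let sec : (W → ℕ → Bool) → (l : ℕ) → W → (Fin l → W) → Set (ℕ → Bool) := fun c l i x =>
    {y | Fin.snoc (α := fun _ => ℕ → Bool) (fun j => c (x j)) y ∈ B l i}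
  obtain ⟨c, hc⟩ := wfrec (W := W) (Y := ℕ → Bool)
    (fun w c y => ∀ i, i < w → ∀ l, ∀ x : Fin l → W, (∀ j, x j < w) →
      IsMeagre (sec c l i x) → y ∉ sec c l i x)
    (by
      intro w g g' y hgg h i hi l x hx hm
      have : sec g l i x = sec g' l i x := by
        simp only [sec]
        have h1 : (fun j => g (x j)) = fun j => g' (x j) := by
          funext j
          exact hgg _ (hx j)
        rw [h1]
      rw [← this] at hm ⊢
      exact h i hi l x hx hm)
    (by
      intro w g
      have : Countable (Set.Iio w) := (OmegaOne.cIio w).to_subtype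
      let T : (Set.Iio w) × (Σ l : ℕ, (Fin l → Set.Iio w)) → Set (ℕ → Bool) := fun p =>
        if IsMeagre (sec g p.2.1 p.1 (fun j => (p.2.2 j : W))) then
          sec g p.2.1 p.1 (fun j => (p.2.2 j : W)) else ∅
      have hT : IsMeagre (⋃ p, T p) := by
        apply isMeagre_iUnion
        intro p
        by_cases hp : IsMeagre (sec g p.2.1 p.1 (fun j => (p.2.2 j : W)))
        · simp only [T, hp, if_true]
        · simp only [T, hp, if_false]
          exact IsMeagre.empty
      have hne : ∃ y, y ∉ ⋃ p, T p := by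
        by_contra hcon
        push Not at hcon
        have : (⋃ p, T p) = Set.univ := Set.eq_univ_of_forall hcon
        rw [this] at hT
        exact not_isMeagre_of_isOpen isOpen_univ Set.univ_nonempty hT
      obtain ⟨y, hy⟩ := hne
      refine ⟨y, fun i hi l x hx hm hmem => hy ?_⟩
      rw [Set.mem_iUnion]
      refine ⟨(⟨i, hi⟩, ⟨l, fun j => ⟨x j, hx j⟩⟩), ?_⟩
      simp only [T]
      rw [if_pos hm]
      exact hmem)
  refine ⟨c, ?_⟩
  intro n
  induction n with
  | zero =>
    intro C hC
    obtain ⟨w0⟩ : Nonempty W := by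
      by_contra hne
      rw [not_nonempty_iff] at hne
      exact OmegaOne.unc (W := W) (Set.countable_univ)
    refine ⟨w0, fun z _ _ hmem => ?_⟩
    have : C = Set.univ := by
      apply Set.eq_univ_of_forall
      intro y
      have : y = fun i => c (z i) := Subsingleton.elim _ _
      rw [this]
      exact hmem
    rw [this] at hC
    exact not_isMeagre_of_isOpen isOpen_univ Set.univ_nonempty hC
  | succ l ih =>
    intro C hC
    obtain ⟨i, hi⟩ := hB2 l C hC
    have h1 : IsMeagre ((snocHomeo l) ⁻¹' (B l i)) :=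
      (hB1 l i).preimage_of_isOpenMap (snocHomeo l).continuous (snocHomeo l).isOpenMap
    obtain ⟨w1, hw1⟩ := ih _ (ku _ h1)
    refine ⟨max i w1, fun z hz hzw hmem => ?_⟩
    have h2 := hw1 (fun j => z j.castSucc) (fun a b hab => hz (Fin.castSucc_lt_castSucc_iff.2 hab))
      (fun j => (le_max_right _ _).trans_lt (hzw _))
    rw [Set.mem_ofPred_eq, not_not] at h2
    have h3 := hc (z (Fin.last l)) i ((le_max_left _ _).trans_lt (hzw _)) l
      (fun j => z j.castSucc) (fun j => hz (Fin.castSucc_lt_last j)) h2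
    apply h3
    change Fin.snoc (α := fun _ => ℕ → Bool) (fun j => c (z (Fin.castSucc j)))
      (c (z (Fin.last l))) ∈ B l i
    have h4 : Fin.snoc (α := fun _ => ℕ → Bool) (fun j => c (z (Fin.castSucc j)))
      (c (z (Fin.last l))) = fun i => c (z i) := by
      funext j
      refine Fin.lastCases ?_ (fun j' => ?_) j <;> simp
    rw [h4]
    exact hi hmem

/-- basic closed sets in the Cantor set -/
def Cl (P : Set (List Bool)) : Set (ℕ → Bool) :=
  {z | ∀ p ∈ P, ¬ ∀ i (h : i < p.length), p[i] = z i}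

theorem closed_eq_Cl (K : Set (ℕ → Bool)) (hK : IsClosed K) : ∃ P, K = Cl P := by
  classical
  refine ⟨{p | ∀ z : ℕ → Bool, (∀ i (h : i < p.length), p[i] = z i) → z ∉ K}, ?_⟩
  ext z
  constructor
  · intro hz p hp h
    exact hp z h hz
  · intro hz
    by_contra hzK
    have hopen : IsOpen Kᶜ := hK.isOpen_compl
    obtain ⟨I, u, hu, hsub⟩ := isOpen_pi_iff.1 hopen z hzK
    let N := I.sup id + 1
    refine hz (List.ofFn (fun i : Fin N => z i)) ?_ ?_
    · intro z' hz'
      apply hsub
      intro m hm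
      have hmN : m < N := Nat.lt_succ_of_le (Finset.le_sup (f := id) hm)
      have h1 := hz' m (by rw [List.length_ofFn]; exact hmN)
      rw [List.getElem_ofFn] at h1
      simp only at h1
      rw [← h1]
      exact (hu m hm).2
    · intro i hi
      rw [List.getElem_ofFn]

theorem cof_of_surj {W : Type} [Nonempty W] (f : W → (ℕ → Set (List Bool)))
    (hf : Function.Surjective f) : CofM W := by
  classical
  refine ⟨fun i => if ∀ n, IsNowhereDense (Cl (f i n)) then ⋃ n, Cl (f i n) else ∅, ?_, ?_⟩
  · intro i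
    by_cases h : ∀ n, IsNowhereDense (Cl (f i n))
    · simp only [h, implies_true, if_true]
      exact isMeagre_iUnion (fun n => (h n).isMeagre)
    · simp only [h, if_false]
      exact IsMeagre.empty
  · intro B hB
    obtain ⟨S, hS1, hS2, hS3⟩ := isMeagre_iff_countable_union_isNowhereDense.1 hB
    by_cases hne : S.Nonempty
    · obtain ⟨t, ht⟩ := hS2.exists_eq_range hne
      have h1 : ∀ n, ∃ P, closure (t n) = Cl P := fun n => closed_eq_Cl _ isClosed_closure
      choose P hP using h1
      obtain ⟨i, hi⟩ := hf P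
      refine ⟨i, ?_⟩
      have h2 : ∀ n, IsNowhereDense (Cl (f i n)) := by
        intro n
        rw [hi, ← hP n]
        exact (hS1 (t n) (by rw [ht]; exact ⟨n, rfl⟩)).closure
      simp only [h2, implies_true, if_true]
      intro z hz
      obtain ⟨s, hs, hzs⟩ := hS3 hz
      rw [ht] at hs
      obtain ⟨n, rfl⟩ := hs
      rw [Set.mem_iUnion]
      refine ⟨n, ?_⟩
      rw [hi, ← hP n]
      exact subset_closure hzs
    · rw [Set.not_nonempty_iff_eq_empty] at hne
      refine ⟨Classical.arbitrary W, ?_⟩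
      intro z hz
      obtain ⟨s, hs, _⟩ := hS3 hz
      rw [hne] at hs
      exact hs.elim

open Cardinal in
theorem cof_of_CH {W : Type} (hW : #W = Cardinal.continuum) : CofM W := by
  have h1 : #(ℕ → Set (List Bool)) ≤ #W := by
    rw [hW]
    have : #(ℕ → Set (List Bool)) = (2 ^ #(List Bool)) ^ #ℕ := by
      simp
    rw [this, ← Cardinal.power_mul]
    have h2 : #(List Bool) = ℵ₀ := Cardinal.mk_eq_aleph0 _
    rw [h2, Cardinal.mk_nat, Cardinal.aleph0_mul_aleph0, Cardinal.two_power_aleph0]
  have hne : Nonempty W := by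
    rw [← Cardinal.mk_ne_zero_iff, hW]
    exact Cardinal.continuum_ne_zero
  obtain ⟨g⟩ := h1
  have : Nonempty (ℕ → Set (List Bool)) := ⟨fun _ => ∅⟩
  exact cof_of_surj (Function.invFun g) (Function.invFun_surjective g.injective)

end

end Pool.Agent.H60.CP
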