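import Pool.Agent.H60.CP.Basic

set_option autoImplicit false

namespace Pool.Agent.H60.CP

open Set

section
variable {W : Type} [LinearOrder W] [OmegaOne W]

/-- `f` is finite-to-one below `w` and coherent with the `g v`, `v < w`. -/
def CohAt (w : W) (g : W → W → ℕ) (f : W → ℕ) : Prop :=
  (∀ k : ℕ, {a | a < w ∧ f a ≤ k}.Finite) ∧ ∀ v, v < w → {a | a < v ∧ f a ≠ g v a}.Finite

theorem coh_step (w : W) (g : W → W → ℕ) (hg : ∀ v, v < w → CohAt v g (g v)) :
    ∃ f : W → ℕ, CohAt w g f := by
  classical
  by_cases hne : (Set.Iio w).Nonempty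
  · obtain ⟨z, hz⟩ := (OmegaOne.cIio w).exists_eq_range hne
    have hzlt : ∀ n, z n < w := fun n => by
      have : z n ∈ Set.Iio w := by rw [hz]; exact ⟨n, rfl⟩
      exact this
    have hex : ∀ a, a < w → ∃ n, a ≤ z n := by
      intro a ha
      have : a ∈ Set.range z := by rw [← hz]; exact ha
      obtain ⟨n, hn⟩ := this
      exact ⟨n, hn.ge⟩
    let N : W → ℕ := fun a => if h : ∃ n, a ≤ z n then Nat.find h else 0
    have hN1 : ∀ a, a < w → a ≤ z (N a) := by
      intro a ha
      have h := hex a ha
      simp only [N, h, dif_pos]
      exact Nat.find_spec h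
    have hN2 : ∀ a n, a ≤ z n → N a ≤ n := by
      intro a n h
      have h' : ∃ n, a ≤ z n := ⟨n, h⟩
      simp only [N, h', dif_pos]
      exact Nat.find_min' h' h
    let f : W → ℕ := fun a => if a < z (N a) then max (g (z (N a)) a) (N a) else N a
    have hfN : ∀ a, N a ≤ f a := by
      intro a
      simp only [f]
      split_ifs
      · exact le_max_right _ _
      · exact le_rfl
    refine ⟨f, ?_, ?_⟩
    · intro k
      have hfin : (⋃ n ∈ Finset.range (k + 1),
          ({a | a < z n ∧ g (z n) a ≤ k} ∪ {z n})).Finite := by
        apply Set.Finite.biUnion (Finset.finite_toSet _)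
        intro n _
        exact ((hg (z n) (hzlt n)).1 k).union (Set.finite_singleton _)
      refine hfin.subset ?_
      intro a ha
      have ha1 : a < w := ha.1
      have ha2 : f a ≤ k := ha.2
      rw [Set.mem_iUnion₂]
      refine ⟨N a, ?_, ?_⟩
      · have := hfN a
        simp only [Finset.mem_range]
        omega
      · by_cases h : a < z (N a)
        · left
          refine ⟨h, ?_⟩
          have : f a = max (g (z (N a)) a) (N a) := by simp only [f, h, if_true]
          rw [this] at ha2
          exact le_trans (le_max_left _ _) ha2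
        · right
          exact le_antisymm (hN1 a ha1) (not_lt.1 h)
    · intro v hv
      have : v ∈ Set.range z := by rw [← hz]; exact hv
      obtain ⟨m, rfl⟩ := this
      have hfin : (⋃ n ∈ Finset.range (m + 1),
          (({a | a < z n ∧ a < z m ∧ g (z n) a ≠ g (z m) a} ∪ {a | a < z n ∧ g (z n) a ≤ n})
            ∪ {z n})).Finite := by
        apply Set.Finite.biUnion (Finset.finite_toSet _)
        intro n _
        refine (Set.Finite.union ?_ ((hg (z n) (hzlt n)).1 n)).union (Set.finite_singleton _)
        rcases lt_trichotomy (z n) (z m) with h | h | h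
        · refine ((hg (z m) (hzlt m)).2 (z n) h).subset ?_
          intro a ha
          exact ⟨ha.1, fun e => ha.2.2 e.symm⟩
        · have : {a | a < z n ∧ a < z m ∧ g (z n) a ≠ g (z m) a} = ∅ := by
            ext a
            simp only [Set.mem_ofPred_eq, Set.mem_empty_iff_false, iff_false, not_and, not_not]
            intro _ _
            rw [h]
          rw [this]
          exact Set.finite_empty
        · refine ((hg (z n) (hzlt n)).2 (z m) h).subset ?_
          intro a ha
          exact ⟨ha.2.1, ha.2.2⟩
      refine hfin.subset ?_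
      intro a ha
      have ha1 : a < z m := ha.1
      have ha2 : f a ≠ g (z m) a := ha.2
      have haw : a < w := ha1.trans (hzlt m)
      rw [Set.mem_iUnion₂]
      refine ⟨N a, ?_, ?_⟩
      · have := hN2 a m ha1.le
        simp only [Finset.mem_range]
        omega
      · by_cases h : a < z (N a)
        · left
          have hfa : f a = max (g (z (N a)) a) (N a) := by simp only [f, h, if_true]
          by_cases h2 : g (z (N a)) a ≤ N a
          · right
            exact ⟨h, h2⟩
          · left
            refine ⟨h, ha1, ?_⟩
            rw [hfa, max_eq_left (not_le.1 h2).le] at ha2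
            exact ha2
        · right
          exact le_antisymm (hN1 a haw) (not_lt.1 h)
  · rw [Set.not_nonempty_iff_eq_empty] at hne
    refine ⟨fun _ => 0, ?_, ?_⟩
    · intro k
      refine Set.finite_empty.subset ?_
      intro a ha
      have : a ∈ Set.Iio w := ha.1
      rw [hne] at this
      exact this
    · intro v hv
      have : v ∈ Set.Iio w := hv
      rw [hne] at this
      exact this.elim

theorem CohAt.congr {w : W} {g g' : W → W → ℕ} {f : W → ℕ} (h : ∀ v, v < w → g v = g' v)
    (hf : CohAt w g f) : CohAt w g' f :=
  ⟨hf.1, fun v hv => by rw [← h v hv]; exact hf.2 v hv⟩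

/-- A coherent sequence of finite-to-one functions. -/
theorem exists_coherent : ∃ e : W → W → ℕ,
    (∀ w k, {a | a < w ∧ e w a ≤ k}.Finite) ∧
      ∀ v w, v < w → {a | a < v ∧ e w a ≠ e v a}.Finite := by
  obtain ⟨e, he⟩ := wfrec (W := W) (Y := W → ℕ)
    (fun w g f => (∀ v, v < w → CohAt v g (g v)) → CohAt w g f)
    (by
      intro w g g' y hgg h hg'
      refine CohAt.congr hgg (h ?_)
      intro v hv
      rw [hgg v hv]
      refine CohAt.congr ?_ (hg' v hv)
      intro u hu
      exact (hgg u (hu.trans hv)).symm)
    (by
      intro w g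
      by_cases h : ∀ v, v < w → CohAt v g (g v)
      · obtain ⟨f, hf⟩ := coh_step w g h
        exact ⟨f, fun _ => hf⟩
      · exact ⟨fun _ => 0, fun h' => (h h').elim⟩)
  have hall : ∀ w, CohAt w e (e w) := by
    intro w
    induction w using WellFoundedLT.induction with
    | ind w ih => exact he w ih
  exact ⟨e, fun w k => (hall w).1 k, fun v w hvw => (hall w).2 v hvw⟩

end

end Pool.Agent.H60.CP
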