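import Pool.Agent.H60.CP.Basic

set_option autoImplicit false

namespace Pool.Agent.H60.CP

open Set Filter Topology Cardinal

/-- `C_p(X)` is hereditarily separable. -/
def CpHS (X : Type) [TopologicalSpace X] : Prop :=
  ∀ S : Set (X → ℝ), (∀ f ∈ S, Continuous f) → ∃ D ⊆ S, D.Countable ∧ S ⊆ closure D

/-- The set `S` of functions is sequentially separable for pointwise convergence. -/
def SeqSep {X : Type} (S : Set (X → ℝ)) : Prop :=
  ∃ D ⊆ S, D.Countable ∧ ∀ f ∈ S, ∃ u : ℕ → X → ℝ, (∀ n, u n ∈ D) ∧ Tendsto u atTop (𝓝 f)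

/-- `C_p(X)` is hereditarily sequentially separable. -/
def CpHSS (X : Type) [TopologicalSpace X] : Prop :=
  ∀ S : Set (X → ℝ), (∀ f ∈ S, Continuous f) → SeqSep S

/-- `κ < 𝔭`: every family of at most `κ` subsets of `ℕ` all of whose finite intersections are
infinite has an infinite pseudo-intersection. -/
def PGt (κ : Cardinal.{0}) : Prop :=
  ∀ (ι : Type) (A : ι → Set ℕ), #ι ≤ κ → (∀ s : Finset ι, {m | ∀ i ∈ s, m ∈ A i}.Infinite) →
    ∃ B : Set ℕ, B.Infinite ∧ ∀ i, (B \ A i).Finite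

theorem pos {κ : Cardinal.{0}} (hκ : ℵ₀ ≤ κ) (hp : PGt κ) (X : Type) [TopologicalSpace X]
    (hX : #X ≤ κ) (h : CpHS X) : CpHSS X := by
  classical
  intro S hS
  obtain ⟨D, hDS, hDc, hD⟩ := h S hS
  refine ⟨D, hDS, hDc, fun f hf => ?_⟩
  by_cases hfD : f ∈ D
  · exact ⟨fun _ => f, fun _ => hfD, tendsto_const_nhds⟩
  have hne : D.Nonempty := by
    rw [← closure_nonempty_iff]
    exact ⟨f, hD hf⟩
  obtain ⟨d, hd⟩ := hDc.exists_eq_range hne
  let A : X × ℕ → Set ℕ := fun p => {m | |d m p.1 - f p.1| < 1 / ((p.2 : ℝ) + 1)}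
  have hcard : #(X × ℕ) ≤ κ := by
    rw [Cardinal.mk_prod]
    simp only [Cardinal.lift_id, Cardinal.mk_nat]
    calc #X * ℵ₀ ≤ κ * κ := mul_le_mul' hX hκ
      _ = κ := Cardinal.mul_eq_self hκ
  have hinf : ∀ s : Finset (X × ℕ), {m | ∀ i ∈ s, m ∈ A i}.Infinite := by
    intro s hfin
    have hO : IsOpen {g : X → ℝ | ∀ i ∈ s, |g i.1 - f i.1| < 1 / ((i.2 : ℝ) + 1)} := by
      have : {g : X → ℝ | ∀ i ∈ s, |g i.1 - f i.1| < 1 / ((i.2 : ℝ) + 1)} =
          ⋂ i ∈ s, {g : X → ℝ | |g i.1 - f i.1| < 1 / ((i.2 : ℝ) + 1)} := by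
        ext g
        simp only [Set.mem_ofPred_eq, Set.mem_iInter]
      rw [this]
      refine isOpen_biInter_finset (fun i _ => ?_)
      exact isOpen_lt (((continuous_apply i.1).sub continuous_const).abs) continuous_const
    have hF : (d '' {m | ∀ i ∈ s, m ∈ A i}).Finite := hfin.image d
    have hO2 : IsOpen ({g : X → ℝ | ∀ i ∈ s, |g i.1 - f i.1| < 1 / ((i.2 : ℝ) + 1)} \
        (d '' {m | ∀ i ∈ s, m ∈ A i})) := hO.sdiff hF.isClosed
    have hfO : f ∈ ({g : X → ℝ | ∀ i ∈ s, |g i.1 - f i.1| < 1 / ((i.2 : ℝ) + 1)} \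
        (d '' {m | ∀ i ∈ s, m ∈ A i})) := by
      refine ⟨fun i _ => ?_, ?_⟩
      · rw [sub_self, abs_zero]
        positivity
      · rintro ⟨m, _, hm⟩
        apply hfD
        rw [← hm, hd]
        exact ⟨m, rfl⟩
    obtain ⟨g, hg, hgD⟩ := mem_closure_iff.1 (hD hf) _ hO2 hfO
    rw [hd] at hgD
    obtain ⟨m, rfl⟩ := hgD
    exact hg.2 ⟨m, hg.1, rfl⟩
  obtain ⟨B, hB, hB2⟩ := hp (X × ℕ) A hcard hinf
  have hBi : Infinite B := hB.to_subtype
  let b : ℕ → ℕ := fun k => Nat.nth (· ∈ B) k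
  have hb : ∀ k, b k ∈ B := fun k => Nat.nth_mem_of_infinite hB k
  have hbm : StrictMono b := Nat.nth_strictMono hB
  refine ⟨fun k => d (b k), fun k => by rw [hd]; exact ⟨_, rfl⟩, ?_⟩
  rw [tendsto_pi_nhds]
  intro x
  rw [Metric.tendsto_atTop]
  intro ε hε
  obtain ⟨n, hn⟩ := exists_nat_one_div_lt hε
  obtain ⟨N, hN⟩ := (hB2 (x, n)).bddAbove
  refine ⟨N + 1, fun k hk => ?_⟩
  have h1 : b k ∈ A (x, n) := by
    by_contra hcon
    have h2 : b k ≤ N := hN ⟨hb k, hcon⟩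
    have h3 : k ≤ b k := hbm.id_le k
    omega
  rw [Real.dist_eq]
  exact lt_trans h1 hn

end Pool.Agent.H60.CP
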