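import Pool.Agent.H60.CP.NS
import Pool.Agent.H60.CP.Cof
import Pool.Agent.H60.CP.Pos

set_option autoImplicit false

namespace Pool.Agent.H60.CP

open Set Filter Topology Cardinal

/-- The set of countable ordinals. -/
abbrev Om1 : Type := (Cardinal.aleph 1).ord.ToType

theorem mk_Om1 : #Om1 = Cardinal.aleph 1 := by simp

instance : OmegaOne Om1 where
  wf := inferInstance
  cIio w := by
    have h : #(Set.Iio w) < #Om1 := Cardinal.mk_Iio_lt w (by simp)
    rw [mk_Om1] at h
    rw [← Cardinal.le_aleph0_iff_set_countable]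
    have h2 : Cardinal.aleph 1 = Order.succ ℵ₀ := Cardinal.succ_aleph0.symm
    exact Order.lt_succ_iff.1 (h.trans_eq h2)
  unc := by
    intro h
    have h1 : #(Set.univ : Set Om1) ≤ ℵ₀ := (Cardinal.le_aleph0_iff_set_countable).2 h
    rw [Cardinal.mk_univ, mk_Om1] at h1
    exact absurd h1 (not_le.2 Cardinal.aleph0_lt_aleph_one)

/-- There is an `ω₁`-sequence of points of the Cantor set each of whose finite powers is a Luzin
sequence: every meagre subset of `(2^ω)^n` omits all increasing `n`-tuples beyond some point. -/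
def StrongLuzin : Prop :=
  ∃ c : Om1 → ℕ → Bool, ∀ (n : ℕ) (A : Set (Fin n → ℕ → Bool)), IsMeagre A →
    ∃ w : Om1, ∀ z : Fin n → Om1, StrictMono z → (∀ i, w < z i) → (fun i => c (z i)) ∉ A

theorem exists_inj : ∃ r : Om1 → ℕ → Bool, Function.Injective r := by
  have h : #Om1 ≤ #(ℕ → Bool) := by
    rw [mk_Om1]
    have : #(ℕ → Bool) = Cardinal.continuum := by simp
    rw [this]
    exact Cardinal.aleph_one_le_continuum
  obtain ⟨g⟩ := h
  exact ⟨g, g.injective⟩

theorem negative (h : StrongLuzin) :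
    ∃ (X : Type) (_ : TopologicalSpace X), T35Space X ∧ #X = Cardinal.aleph 1 ∧ CpHS X ∧
      ∃ S : Set (X → ℝ), (∀ f ∈ S, Continuous f) ∧ ¬ S.Countable ∧
        (∀ (u : ℕ → X → ℝ) (g : X → ℝ), (∀ n, u n ∈ S) → Tendsto u atTop (𝓝 g) →
          ∀ᶠ n in atTop, u n = g) ∧ ¬ SeqSep S := by
  obtain ⟨c, hc⟩ := h
  obtain ⟨r, hr⟩ := exists_inj
  obtain ⟨e, he1, he2⟩ := exists_coherent (W := Om1)
  have D : Data c r e := ⟨hc, hr, he1, he2⟩
  refine ⟨Sp c r e, inferInstance, sp_t35 hr, mk_Om1, fun S hS => hs D S hS,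
    Set.range (yf c r e), ?_, yf_unc D, ?_, ?_⟩
  · rintro _ ⟨a, rfl⟩
    exact yf_cont c r e a
  · intro u g hu hT
    exact ns_evtl D u hu g hT
  · rintro ⟨C, hCS, hCc, hC⟩
    apply yf_unc D
    refine hCc.mono (fun f hf => ?_)
    obtain ⟨u, hu, hT⟩ := hC f hf
    obtain ⟨n, hn⟩ := (ns_evtl D u (fun n => hCS (hu n)) f hT).exists
    rw [← hn]
    exact hu n

theorem strongLuzin_of_cof (h : CofM Om1) : StrongLuzin := luz_of_cof h

theorem cof_of_continuum (h : Cardinal.continuum.{0} = Cardinal.aleph 1) : CofM Om1 :=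
  cof_of_CH (by rw [mk_Om1, h])

end Pool.Agent.H60.CP
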