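import Pool.Agent.H60.CP.Key

set_option autoImplicit false

namespace Pool.Agent.H60.CP

open Set

section
variable {W : Type} [LinearOrder W] [OmegaOne W]

/-- What we keep about `c, r, e`. -/
structure Data (c r : W → ℕ → Bool) (e : W → W → ℕ) : Prop where
  luz : Luz c
  inj : Function.Injective r
  e1 : ∀ w k, {a | a < w ∧ e w a ≤ k}.Finite
  e2 : ∀ v w, v < w → {a | a < v ∧ e w a ≠ e v a}.Finite

/-- separation level of a finite set of reals -/
theorem sep_level {r : W → ℕ → Bool} (hr : Function.Injective r) (T : Finset W) :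
    ∃ l0 : ℕ, ∀ a ∈ T, ∀ b ∈ T, a ≠ b → ∃ i, i < l0 ∧ r a i ≠ r b i := by
  classical
  have h : ∀ p : W × W, ∃ l : ℕ, p.1 ≠ p.2 → ∃ i, i < l ∧ r p.1 i ≠ r p.2 i := by
    intro p
    by_cases hp : p.1 = p.2
    · exact ⟨0, fun h => (h hp).elim⟩
    · have : r p.1 ≠ r p.2 := fun h => hp (hr h)
      obtain ⟨i, hi⟩ := Function.ne_iff.1 this
      exact ⟨i + 1, fun _ => ⟨i, Nat.lt_succ_self i, hi⟩⟩
  choose l hl using h
  refine ⟨(T ×ˢ T).sup l, fun a ha b hb hab => ?_⟩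
  obtain ⟨i, hi, hi2⟩ := hl (a, b) hab
  exact ⟨i, hi.trans_le (Finset.le_sup (f := l) (Finset.mk_mem_product ha hb)), hi2⟩

/-- No right separated sequences in the finite powers (combinatorial form). -/
theorem hl {c r : W → ℕ → Bool} {e : W → W → ℕ} (D : Data c r e) (n : ℕ) (X : Set W)
    (hX : ¬ X.Countable) (a : W → Fin n → W) (U : W → Set (Fin n → W))
    (hU : ∀ x ∈ X, ∃ T : Finset W, ∃ L : ℕ, ∀ b : Fin n → W,
      (∀ i, ∀ q ∈ T, F c r e (b i) q = F c r e (a x i) q) →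
      (∀ i, ∀ l, l < L → r (b i) l = r (a x i) l) → b ∈ U x) :
    ∃ x ∈ X, ∃ y ∈ X, x < y ∧ a y ∈ U x := by
  classical
  have hU' : ∀ x, ∃ T : Finset W, ∃ L : ℕ, x ∈ X → ∀ b : Fin n → W,
      (∀ i, ∀ q ∈ T, F c r e (b i) q = F c r e (a x i) q) →
      (∀ i, ∀ l, l < L → r (b i) l = r (a x i) l) → b ∈ U x := by
    intro x
    by_cases hx : x ∈ X
    · obtain ⟨T, L, h⟩ := hU x hx
      exact ⟨T, L, fun _ => h⟩
    · exact ⟨∅, 0, fun h => (hx h).elim⟩
  choose T L hTL using hU'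
  choose l0 hl0 using fun x => sep_level D.inj (T x)
  -- first pigeonhole
  obtain ⟨⟨m, L', l⟩, hX1⟩ := pig hX (fun x => ((T x).card, L x, l0 x))
  set X1 : Set W := {x | x ∈ X ∧ ((T x).card, L x, l0 x) = (m, L', l)} with hX1def
  have hX1a : ∀ x ∈ X1, x ∈ X := fun x hx => hx.1
  have hX1b : ∀ x ∈ X1, (T x).card = m := fun x hx => congrArg Prod.fst hx.2
  have hX1c : ∀ x ∈ X1, L x = L' := fun x hx => congrArg (fun p => p.2.1) hx.2
  have hX1d : ∀ x ∈ X1, l0 x = l := fun x hx => congrArg (fun p => p.2.2) hx.2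
  have ht : ∀ x, ∃ t : Fin m → W, x ∈ X1 → Function.Injective t ∧ ∀ q, q ∈ T x ↔ ∃ j, t j = q := by
    intro x
    by_cases hx : x ∈ X1
    · have hcard := hX1b x hx
      refine ⟨fun j => (T x).orderEmbOfFin hcard j, fun _ => ⟨?_, ?_⟩⟩
      · exact ((T x).orderEmbOfFin hcard).injective
      · intro q
        have := (T x).range_orderEmbOfFin hcard
        rw [← Finset.mem_coe, ← this]
        exact Iff.rfl
    · by_cases hW : Nonempty W
      · exact ⟨fun _ => Classical.arbitrary W, fun h => (hx h).elim⟩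
      · exact (hW ⟨x⟩).elim
  choose t ht using ht
  -- second pigeonhole
  obtain ⟨⟨E, Q⟩, hX2⟩ := pig hX1 (fun x =>
    ((fun (i : Fin n) (j : Fin m) => F c r e (a x i) (t x j)),
      (fun (i : Fin n) (q : Fin L') => r (a x i) q)))
  obtain ⟨X3, hX32, hX3, hdel⟩ := delta (Finset.univ : Finset (Fin n ⊕ Fin m)) hX2
    (fun x => Sum.elim (a x) (t x))
  have h31 : ∀ x ∈ X3, x ∈ X1 := fun x hx => (hX32 hx).1
  have h3E : ∀ x ∈ X3, ∀ i j, F c r e (a x i) (t x j) = E i j := fun x hx i j => by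
    have := congrArg Prod.fst (hX32 hx).2
    exact congrFun (congrFun this i) j
  have h3Q : ∀ x ∈ X3, ∀ i (q : Fin L'), r (a x i) q = Q i q := fun x hx i q => by
    have := congrArg Prod.snd (hX32 hx).2
    exact congrFun (congrFun this i) q
  -- moving coordinates
  let mv : Fin n ⊕ Fin m → Prop := fun i =>
    ∀ v, {x | x ∈ X3 ∧ Sum.elim (a x) (t x) i = v}.Countable
  have hfix : ∀ i, ¬ mv i → ∃ v, ∀ x ∈ X3, Sum.elim (a x) (t x) i = v := by
    intro i hi
    rcases hdel i (Finset.mem_univ i) with h | h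
    · exact h
    · exact (hi h).elim
  have hmv : ∀ (C : Set W), C.Countable → ∀ i, mv i →
      {x | x ∈ X3 ∧ Sum.elim (a x) (t x) i ∈ C}.Countable := by
    intro C hC i hi
    have : {x | x ∈ X3 ∧ Sum.elim (a x) (t x) i ∈ C} ⊆
        ⋃ v ∈ C, {x | x ∈ X3 ∧ Sum.elim (a x) (t x) i = v} := by
      intro x hx
      rw [Set.mem_iUnion₂]
      exact ⟨_, hx.2, hx.1, rfl⟩
    exact (hC.biUnion (fun v _ => hi v)).mono this
  let J : Type := {j : Fin m // mv (Sum.inr j)}
  -- the sequence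
  obtain ⟨xs, hxs1, hxs2⟩ := exists_seq_of_forall_finset_exists
    (fun x => x ∈ X3) (fun x x' => ∀ j j' : J, t x j.1 ≠ t x' j'.1) (by
      intro s _
      have hC : (⋃ x ∈ s, Set.range (t x)).Countable :=
        Set.Countable.biUnion s.countable_toSet (fun x _ => Set.countable_range _)
      have hbad : (⋃ j : J, {x | x ∈ X3 ∧ Sum.elim (a x) (t x) (Sum.inr j.1) ∈
          (⋃ x ∈ s, Set.range (t x))}).Countable :=
        Set.countable_iUnion (fun j => hmv _ hC _ j.2)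
      obtain ⟨y, hy, hy2⟩ := exists_diff hX3 hbad
      refine ⟨y, hy, fun x hx j j' heq => hy2 ?_⟩
      rw [Set.mem_iUnion]
      refine ⟨j', hy, ?_⟩
      rw [Set.mem_iUnion₂]
      exact ⟨x, hx, j.1, heq⟩)
  obtain ⟨w, hw⟩ := key D.luz D.e1 D.e2 (J := J) (fun k j => t (xs k) j.1)
    (by
      intro k k' j j' h
      have hk : k = k' := by
        rcases lt_trichotomy k k' with hlt | heq | hlt
        · exact (hxs2 k k' hlt j j' h).elim
        · exact heq
        · exact (hxs2 k' k hlt j' j h.symm).elim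
      subst hk
      exact ⟨rfl, Subtype.ext ((ht _ (h31 _ (hxs1 k))).1 h)⟩) l
    (by
      intro k j j' hjj
      have h1 := h31 _ (hxs1 k)
      have hne : t (xs k) j.1 ≠ t (xs k) j'.1 := fun h => hjj (Subtype.ext ((ht _ h1).1 h))
      have := hl0 (xs k) _ (((ht _ h1).2 _).2 ⟨j.1, rfl⟩) _ (((ht _ h1).2 _).2 ⟨j'.1, rfl⟩) hne
      rw [hX1d _ h1] at this
      exact this)
  -- choose the late point
  obtain ⟨g, hg⟩ := bdd (Set.countable_range xs)
  have hbad : (Set.Iic g ∪ ⋃ i : {i : Fin n // mv (Sum.inl i)},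
      {x | x ∈ X3 ∧ Sum.elim (a x) (t x) (Sum.inl i.1) ∈ Set.Iic w}).Countable :=
    (cIic g).union (Set.countable_iUnion (fun i => hmv _ (cIic w) _ i.2))
  obtain ⟨y, hy, hy2⟩ := exists_diff hX3 hbad
  rw [Set.mem_union, not_or] at hy2
  have hyg : g < y := not_le.1 hy2.1
  have hyw : ∀ i, mv (Sum.inl i) → w < a y i := by
    intro i hi
    by_contra hlt
    exact hy2.2 (Set.mem_iUnion.2 ⟨⟨i, hi⟩, hy, not_lt.1 hlt⟩)
  let Z : Finset W := (Finset.univ.filter (fun i : Fin n => mv (Sum.inl i))).image (a y)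
  obtain ⟨k, hk⟩ := hw Z (by
    intro z hz
    rw [Finset.mem_image] at hz
    obtain ⟨i, hi, rfl⟩ := hz
    exact hyw i (Finset.mem_filter.1 hi).2) (fun z j => F c r e z (t y j.1))
  have hxk3 := hxs1 k
  refine ⟨xs k, hX1a _ (h31 _ hxk3), y, hX1a _ (h31 _ hy), (hg _ ⟨k, rfl⟩).trans hyg, ?_⟩
  refine hTL (xs k) (hX1a _ (h31 _ hxk3)) (a y) ?_ ?_
  · intro i q hq
    obtain ⟨j, rfl⟩ := ((ht _ (h31 _ hxk3)).2 q).1 hq
    by_cases hi : mv (Sum.inl i)
    · by_cases hj : mv (Sum.inr j)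
      · have := hk (a y i) (Finset.mem_image.2 ⟨i, Finset.mem_filter.2
          ⟨Finset.mem_univ i, hi⟩, rfl⟩) ⟨j, hj⟩
        rw [this, h3E y hy, h3E _ hxk3]
      · obtain ⟨v, hv⟩ := hfix _ hj
        have e1 : t (xs k) j = t y j := by
          have h1 := hv _ hxk3
          have h2 := hv _ hy
          simp only [Sum.elim_inr] at h1 h2
          rw [h1, h2]
        rw [h3E _ hxk3, e1, h3E y hy]
    · obtain ⟨v, hv⟩ := hfix _ hi
      have e1 : a (xs k) i = a y i := by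
        have h1 := hv _ hxk3
        have h2 := hv _ hy
        simp only [Sum.elim_inl] at h1 h2
        rw [h1, h2]
      rw [e1]
  · intro i q hq
    rw [hX1c _ (h31 _ hxk3)] at hq
    have h1 := h3Q y hy i ⟨q, hq⟩
    have h2 := h3Q _ hxk3 i ⟨q, hq⟩
    simp only at h1 h2
    rw [h1, h2]

end

end Pool.Agent.H60.CP
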