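import Pool.Agent.H60.CP.HL

set_option autoImplicit false

namespace Pool.Agent.H60.CP

open Set

section
variable {W : Type} [LinearOrder W] [OmegaOne W]

/-- The space: points are the elements of `W`, the topology is generated by the columns of the
matrix `F` and the digits of the reals `r`. -/
def Sp (_c _r : W → ℕ → Bool) (_e : W → W → ℕ) : Type := W

/-- The embedding of the space in a Cantor cube. -/
def Phi (c r : W → ℕ → Bool) (e : W → W → ℕ) : Sp c r e → (W → Bool) × (ℕ → Bool) :=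
  fun z => (F c r e z, r z)

instance (c r : W → ℕ → Bool) (e : W → W → ℕ) : TopologicalSpace (Sp c r e) :=
  TopologicalSpace.induced (Phi c r e) inferInstance

theorem phi_embedding {c r : W → ℕ → Bool} {e : W → W → ℕ} (hr : Function.Injective r) :
    Topology.IsEmbedding (Phi c r e) where
  toIsInducing := ⟨rfl⟩
  injective := fun _ _ h => hr (congrArg Prod.snd h)

theorem sp_t35 {c r : W → ℕ → Bool} {e : W → W → ℕ} (hr : Function.Injective r) :
    T35Space (Sp c r e) :=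
  (phi_embedding hr).t35Space

theorem nbhd_of_notMem_closure {X : Type} {f : X → ℝ} {C : Set (X → ℝ)}
    (h : f ∉ closure C) : ∃ I : Finset X, ∃ q : ℕ, ∀ g ∈ C, ∃ x ∈ I, 1 / ((q : ℝ) + 1) ≤ |g x - f x| := by
  classical
  have hopen : IsOpen (closure C)ᶜ := isClosed_closure.isOpen_compl
  obtain ⟨I, u, hu, hsub⟩ := isOpen_pi_iff.1 hopen f h
  have hq : ∀ x : X, ∃ q : ℕ, x ∈ I → ∀ y : ℝ, |y - f x| < 1 / ((q : ℝ) + 1) → y ∈ u x := by
    intro x
    by_cases hx : x ∈ I
    · obtain ⟨ho, hm⟩ := hu x hx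
      obtain ⟨ε, hε, hball⟩ := Metric.isOpen_iff.1 ho (f x) hm
      obtain ⟨q, hq⟩ := exists_nat_one_div_lt hε
      refine ⟨q, fun _ y hy => hball ?_⟩
      rw [Metric.mem_ball, Real.dist_eq]
      exact hy.trans hq
    · exact ⟨0, fun h => (hx h).elim⟩
  choose q hq using hq
  refine ⟨I, I.sup q, fun g hg => ?_⟩
  by_contra hcon
  push Not at hcon
  have : g ∈ (closure C)ᶜ := by
    apply hsub
    intro x hx
    refine hq x hx (g x) ((hcon x hx).trans_le ?_)
    have h1 : q x ≤ I.sup q := Finset.le_sup hx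
    have h2 : (q x : ℝ) ≤ ((I.sup q : ℕ) : ℝ) := by exact_mod_cast h1
    apply one_div_le_one_div_of_le
    · positivity
    · linarith
  exact this (subset_closure hg)

theorem nbhd_cont {c r : W → ℕ → Bool} {e : W → W → ℕ} (g : Sp c r e → ℝ) (hg : Continuous g)
    (x : Sp c r e) (δ : ℝ) (hδ : 0 < δ) :
    ∃ T : Finset W, ∃ L : ℕ, ∀ y : Sp c r e, (∀ q ∈ T, F c r e y q = F c r e x q) →
      (∀ l, l < L → r y l = r x l) → |g y - g x| < δ := by
  classical
  have hV : IsOpen {y : Sp c r e | |g y - g x| < δ} := by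
    have : {y : Sp c r e | |g y - g x| < δ} = g ⁻¹' (Metric.ball (g x) δ) := by
      ext y
      simp only [Set.mem_ofPred_eq, Set.mem_preimage, Metric.mem_ball, Real.dist_eq]
    rw [this]
    exact Metric.isOpen_ball.preimage hg
  obtain ⟨O, hO, hOV⟩ := isOpen_induced_iff.1 hV
  have hxO : Phi c r e x ∈ O := by
    have : x ∈ Phi c r e ⁻¹' O := by
      rw [hOV]
      change |g x - g x| < δ
      rw [sub_self, abs_zero]
      exact hδ
    exact this
  obtain ⟨u, v, hu, hv, hxu, hxv, huv⟩ := isOpen_prod_iff.1 hO (F c r e x) (r x) hxO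
  obtain ⟨T, u', hu', hsu⟩ := isOpen_pi_iff.1 hu _ hxu
  obtain ⟨I, v', hv', hsv⟩ := isOpen_pi_iff.1 hv _ hxv
  refine ⟨T, I.sup id + 1, fun y hy1 hy2 => ?_⟩
  have h1 : F c r e y ∈ u := by
    apply hsu
    intro q hq
    rw [hy1 q hq]
    exact (hu' q hq).2
  have h2 : r y ∈ v := by
    apply hsv
    intro l hl
    have : l ≤ I.sup id := Finset.le_sup (f := id) hl
    rw [hy2 l (Nat.lt_succ_of_le this)]
    exact (hv' l hl).2
  have h3 : y ∈ Phi c r e ⁻¹' O := huv ⟨h1, h2⟩
  rw [hOV] at h3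
  exact h3

theorem hs {c r : W → ℕ → Bool} {e : W → W → ℕ} (D : Data c r e) (S : Set (Sp c r e → ℝ))
    (hS : ∀ f ∈ S, Continuous f) : ∃ D ⊆ S, D.Countable ∧ S ⊆ closure D := by
  classical
  by_contra hcon
  push Not at hcon
  have hcon' : ∀ C ⊆ S, C.Countable → ∃ f ∈ S, f ∉ closure C := by
    intro C hC hC2
    have := hcon C hC hC2
    rw [Set.not_subset] at this
    exact this
  obtain ⟨f, hf⟩ := wfrec (W := W) (Y := Sp c r e → ℝ)
    (fun w g f => g '' (Set.Iio w) ⊆ S → f ∈ S ∧ f ∉ closure (g '' (Set.Iio w)))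
    (by
      intro w g g' y hgg h hg'
      have : g '' (Set.Iio w) = g' '' (Set.Iio w) := Set.image_congr (fun v hv => hgg v hv)
      rw [← this] at hg' ⊢
      exact h hg')
    (by
      intro w g
      by_cases h : g '' (Set.Iio w) ⊆ S
      · obtain ⟨f, hf⟩ := hcon' _ h ((OmegaOne.cIio w).image g)
        exact ⟨f, fun _ => hf⟩
      · exact ⟨fun _ => 0, fun h' => (h h').elim⟩)
  have hfS : ∀ w, f w ∈ S := by
    intro w
    induction w using WellFoundedLT.induction with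
    | ind w ih =>
      refine (hf w ?_).1
      rintro _ ⟨v, hv, rfl⟩
      exact ih v hv
  have hfc : ∀ w, f w ∉ closure (f '' (Set.Iio w)) := by
    intro w
    refine (hf w ?_).2
    rintro _ ⟨v, _, rfl⟩
    exact hfS v
  have hI : ∀ w : W, ∃ I : Finset W, ∃ q : ℕ, ∀ g ∈ f '' (Set.Iio w), ∃ x ∈ I,
      1 / ((q : ℝ) + 1) ≤ |g x - f w x| := fun w => nbhd_of_notMem_closure (hfc w)
  choose I q hIq using hI
  have hU : ¬ (Set.univ : Set W).Countable := OmegaOne.unc
  obtain ⟨⟨n, q'⟩, hX1⟩ := pig hU (fun w => ((I w).card, q w))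
  set X1 : Set W := {w | w ∈ Set.univ ∧ ((I w).card, q w) = (n, q')} with hX1def
  have hX1b : ∀ w ∈ X1, (I w).card = n := fun w hw => congrArg Prod.fst hw.2
  have hX1c : ∀ w ∈ X1, q w = q' := fun w hw => congrArg Prod.snd hw.2
  have hx : ∀ w : W, ∃ x : Fin n → W, w ∈ X1 → ∀ z ∈ I w, ∃ i, x i = z := by
    intro w
    by_cases hw : w ∈ X1
    · have hcard := hX1b w hw
      refine ⟨fun i => (((I w).equivFinOfCardEq hcard).symm i : W), fun _ z hz => ?_⟩
      refine ⟨(I w).equivFinOfCardEq hcard ⟨z, hz⟩, ?_⟩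
      simp
    · exact ⟨fun _ => w, fun h => (hw h).elim⟩
  choose x hx using hx
  set δ : ℝ := 1 / (2 * ((q' : ℝ) + 1)) with hδ
  have hδpos : 0 < δ := by rw [hδ]; positivity
  obtain ⟨E, hX2⟩ := pig hX1 (fun w => (fun i : Fin n => ⌊f w (x w i) / δ⌋))
  set X2 : Set W := {w | w ∈ X1 ∧ (fun i : Fin n => ⌊f w (x w i) / δ⌋) = E} with hX2def
  obtain ⟨v, hv, w, hw, hvw, hmem⟩ := hl D n X2 hX2 x
    (fun w => {z : Fin n → W | ∀ i, |f w (z i) - f w (x w i)| < δ})
    (by
      intro w _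
      have hnb := fun i : Fin n => nbhd_cont (f w) (hS _ (hfS w)) (x w i) δ hδpos
      choose T L hTL using hnb
      refine ⟨Finset.univ.biUnion T, Finset.univ.sup L, fun b hb1 hb2 i => ?_⟩
      refine hTL i (b i) (fun q hq => hb1 i q ?_) (fun l hl => hb2 i l (hl.trans_le ?_))
      · exact Finset.mem_biUnion.2 ⟨i, Finset.mem_univ i, hq⟩
      · exact Finset.le_sup (Finset.mem_univ i))
  -- contradiction
  obtain ⟨z, hz, hz2⟩ := hIq w (f v) ⟨v, hvw, rfl⟩
  obtain ⟨i, rfl⟩ := hx w hw.1 z hz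
  rw [hX1c w hw.1] at hz2
  have h1 : |f v (x w i) - f v (x v i)| < δ := hmem i
  have hfl : ⌊f v (x v i) / δ⌋ = ⌊f w (x w i) / δ⌋ := by
    have e1 := congrFun hv.2 i
    have e2 := congrFun hw.2 i
    exact e1.trans e2.symm
  have h2 : |f v (x v i) / δ - f w (x w i) / δ| < 1 := Int.abs_sub_lt_one_of_floor_eq_floor hfl
  have h3 : |f v (x v i) - f w (x w i)| < δ := by
    rw [← sub_div, abs_div, abs_of_pos hδpos, div_lt_one hδpos] at h2
    exact h2
  have h4 : |f v (x w i) - f w (x w i)| < 2 * δ := by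
    calc |f v (x w i) - f w (x w i)|
        = |(f v (x w i) - f v (x v i)) + (f v (x v i) - f w (x w i))| := by congr 1; ring
      _ ≤ |f v (x w i) - f v (x v i)| + |f v (x v i) - f w (x w i)| := abs_add_le _ _
      _ < 2 * δ := by linarith
  have h5 : 2 * δ = 1 / ((q' : ℝ) + 1) := by
    rw [hδ]
    field_simp
  rw [← h5] at hz2
  exact absurd hz2 (not_le.2 h4)

end

end Pool.Agent.H60.CP
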