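import Pool.Agent.H60.CP.Coh

set_option autoImplicit false

namespace Pool.Agent.H60.CP

open Set

/-- The code of the node `r ↾ l` of the binary tree. -/
def nd (r : ℕ → Bool) (l : ℕ) : ℕ := Encodable.encode (List.ofFn (fun i : Fin l => r i))

theorem nd_inj {r r' : ℕ → Bool} {l l' : ℕ} (h : nd r l = nd r' l') :
    l = l' ∧ ∀ i, i < l → r i = r' i := by
  have h1 : List.ofFn (fun i : Fin l => r i) = List.ofFn (fun i : Fin l' => r' i) :=
    Encodable.encode_injective h
  have hl : l = l' := by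
    have := congrArg List.length h1
    simpa using this
  subst hl
  refine ⟨rfl, fun i hi => ?_⟩
  have := List.ofFn_injective h1
  exact congrFun this ⟨i, hi⟩

theorem nd_large (L : ℕ) : ∃ K : ℕ, ∀ (r : ℕ → Bool) (l : ℕ), K ≤ l → L ≤ nd r l := by
  have hfin : {x : List Bool | Encodable.encode x < L}.Finite := by
    have : {x : List Bool | Encodable.encode x < L} = Encodable.encode ⁻¹' (Set.Iio L) := rfl
    rw [this]
    exact (Set.finite_Iio L).preimage (Encodable.encode_injective.injOn)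
  obtain ⟨K, hK⟩ := (hfin.image List.length).bddAbove
  refine ⟨K + 1, fun r l hl => ?_⟩
  by_contra hlt
  push Not at hlt
  have : (List.ofFn (fun i : Fin l => r i)).length ≤ K :=
    hK ⟨_, hlt, rfl⟩
  rw [List.length_ofFn] at this
  omega

section
variable {W : Type} [LinearOrder W] [OmegaOne W]

/-- The matrix. -/
def F (c : W → ℕ → Bool) (r : W → ℕ → Bool) (e : W → W → ℕ) (z a : W) : Bool :=
  c z (nd (r a) (e z a))

/-- Strong Luzin property of a sequence of reals of type `ω₁`. -/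
def Luz (c : W → ℕ → Bool) : Prop :=
  ∀ (n : ℕ) (A : Set (Fin n → ℕ → Bool)), IsMeagre A →
    ∃ w : W, ∀ z : Fin n → W, StrictMono z → (∀ i, w < z i) → (fun i => c (z i)) ∉ A

theorem fin_bad {J : Type} [Finite J] (s : ℕ → J → W)
    (hs : ∀ k k' j j', s k j = s k' j' → k = k' ∧ j = j')
    (A : Set W) (hA : A.Finite) : {k | ∃ j, s k j ∈ A}.Finite := by
  classical
  have : {k | ∃ j, s k j ∈ A} ⊆ ⋃ j : J, (fun k => s k j) ⁻¹' A := by
    intro k hk
    obtain ⟨j, hj⟩ := hk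
    exact Set.mem_iUnion.2 ⟨j, hj⟩
  refine Set.Finite.subset (Set.finite_iUnion (fun j => ?_)) this
  refine hA.preimage ?_
  intro k _ k' _ h
  exact (hs k k' j j h).1

theorem dense_G {n : ℕ} {J : Type} [Finite J] (N : ℕ → J → ℕ)
    (hN1 : ∀ L K, ∃ k, K ≤ k ∧ (∀ j, L ≤ N k j) ∧ ∀ j j', N k j = N k j' → j = j')
    (eps : Fin n → J → Bool) (K : ℕ) :
    Dense {z : Fin n → ℕ → Bool | ∃ k, K ≤ k ∧ ∀ i j, z i (N k j) = eps i j} := by
  classical
  intro z0
  choose k hk1 hk2 hk3 using fun L => hN1 L K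
  let u : ℕ → Fin n → ℕ → Bool := fun L i m =>
    if h : ∃ j, N (k L) j = m then eps i (Classical.choose h) else z0 i m
  refine mem_closure_of_tendsto (f := u) (b := Filter.atTop) ?_ ?_
  · rw [tendsto_pi_nhds]
    intro i
    rw [tendsto_pi_nhds]
    intro m
    refine tendsto_const_nhds.congr' ?_
    filter_upwards [Filter.eventually_ge_atTop (m + 1)] with L hL
    have : ¬ ∃ j, N (k L) j = m := by
      rintro ⟨j, hj⟩
      have := hk2 L j
      omega
    simp only [u, this, dif_neg, not_false_iff]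
  · refine Filter.Eventually.of_forall (fun L => ?_)
    refine ⟨k L, hk1 L, fun i j => ?_⟩
    have h : ∃ j', N (k L) j' = N (k L) j := ⟨j, rfl⟩
    have h2 : Classical.choose h = j := hk3 L _ _ (Classical.choose_spec h)
    simp only [u, h, dif_pos, h2]

theorem open_G {n : ℕ} {J : Type} [Finite J] (N : ℕ → J → ℕ)
    (eps : Fin n → J → Bool) (K : ℕ) :
    IsOpen {z : Fin n → ℕ → Bool | ∃ k, K ≤ k ∧ ∀ i j, z i (N k j) = eps i j} := by
  have : {z : Fin n → ℕ → Bool | ∃ k, K ≤ k ∧ ∀ i j, z i (N k j) = eps i j} =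
      ⋃ k : ℕ, ⋃ _ : K ≤ k, ⋂ i : Fin n, ⋂ j : J, {z | z i (N k j) = eps i j} := by
    ext z
    simp only [Set.mem_ofPred_eq, Set.mem_iUnion, Set.mem_iInter, exists_prop]
  rw [this]
  refine isOpen_iUnion (fun k => isOpen_iUnion (fun _ => ?_))
  refine isOpen_iInter_of_finite (fun i => isOpen_iInter_of_finite (fun j => ?_))
  have hc : Continuous (fun z : Fin n → ℕ → Bool => z i (N k j)) :=
    (continuous_apply (N k j)).comp (continuous_apply i)
  exact (isOpen_discrete {eps i j}).preimage hc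

theorem key {c r : W → ℕ → Bool} {e : W → W → ℕ} (hc : Luz c)
    (he1 : ∀ w k, {a | a < w ∧ e w a ≤ k}.Finite)
    (he2 : ∀ v w, v < w → {a | a < v ∧ e w a ≠ e v a}.Finite)
    {J : Type} [Finite J] (s : ℕ → J → W)
    (hs : ∀ k k' j j', s k j = s k' j' → k = k' ∧ j = j') (l0 : ℕ)
    (hsep : ∀ k j j', j ≠ j' → ∃ i, i < l0 ∧ r (s k j) i ≠ r (s k j') i) :
    ∃ w : W, ∀ Z : Finset W, (∀ z ∈ Z, w < z) → ∀ eps : W → J → Bool,
      ∃ k, ∀ z ∈ Z, ∀ j, F c r e z (s k j) = eps z j := by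
  classical
  have hcount : (⋃ k : ℕ, Set.range (s k)).Countable :=
    Set.countable_iUnion (fun k => Set.countable_range _)
  obtain ⟨g, hg⟩ := bdd hcount
  have hg' : ∀ k j, s k j < g := fun k j => hg _ (Set.mem_iUnion.2 ⟨k, j, rfl⟩)
  let N : ℕ → J → ℕ := fun k j => nd (r (s k j)) (e g (s k j))
  have hN1 : ∀ L K, ∃ k, K ≤ k ∧ (∀ j, L ≤ N k j) ∧ ∀ j j', N k j = N k j' → j = j' := by
    intro L K
    obtain ⟨K2, hK2⟩ := nd_large L
    have hfin := fin_bad s hs _ (he1 g (max K2 l0))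
    obtain ⟨k, hk⟩ := (hfin.union (Set.finite_Iio K)).exists_notMem
    rw [Set.mem_union, not_or] at hk
    have hk1 : ∀ j, max K2 l0 < e g (s k j) := by
      intro j
      by_contra hlt
      exact hk.1 ⟨j, hg' k j, not_lt.1 hlt⟩
    refine ⟨k, not_lt.1 hk.2, fun j => hK2 _ _ ((le_max_left _ _).trans (hk1 j).le), ?_⟩
    intro j j' hjj
    by_contra hne
    obtain ⟨h1, h2⟩ := nd_inj hjj
    obtain ⟨i, hi, hi2⟩ := hsep k j j' hne
    exact hi2 (h2 i (hi.trans_le ((le_max_right _ _).trans (hk1 j).le)))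
  have hw : ∀ n : ℕ, ∃ w : W, ∀ z : Fin n → W, StrictMono z → (∀ i, w < z i) →
      ∀ (eps : Fin n → J → Bool) (K : ℕ), ∃ k, K ≤ k ∧ ∀ i j, c (z i) (N k j) = eps i j := by
    intro n
    let G : (Fin n → J → Bool) × ℕ → Set (Fin n → ℕ → Bool) := fun p =>
      {z | ∃ k, p.2 ≤ k ∧ ∀ i j, z i (N k j) = p.1 i j}
    have hmeag : IsMeagre (⋃ p, (G p)ᶜ) := by
      apply isMeagre_iUnion
      intro p
      unfold IsMeagre
      rw [compl_compl]
      exact residual_of_dense_open (open_G N p.1 p.2) (dense_G N hN1 p.1 p.2)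
    obtain ⟨w, hw⟩ := hc n _ hmeag
    refine ⟨w, fun z hz hz2 eps K => ?_⟩
    have h1 := hw z hz hz2
    rw [Set.mem_iUnion, not_exists] at h1
    have h2 := h1 (eps, K)
    rw [Set.notMem_compl_iff] at h2
    exact h2
  choose wn hwn using hw
  obtain ⟨w, hw⟩ := bdd ((Set.countable_range wn).union (Set.countable_singleton g))
  refine ⟨w, fun Z hZ eps => ?_⟩
  have hwg : g < w := hw g (Or.inr rfl)
  have hwn' : ∀ n, wn n < w := fun n => hw _ (Or.inl ⟨n, rfl⟩)
  let z : Fin Z.card → W := fun i => Z.orderEmbOfFin rfl i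
  have hz : StrictMono z := (Z.orderEmbOfFin rfl).strictMono
  have hzZ : ∀ i, z i ∈ Z := fun i => Z.orderEmbOfFin_mem rfl i
  have hzw : ∀ i, wn Z.card < z i := fun i => (hwn' _).trans (hZ _ (hzZ i))
  -- a bound beyond which `e (z i)` and `e g` agree
  have hfin : (⋃ i, {k | ∃ j, s k j ∈ {a | a < g ∧ e (z i) a ≠ e g a}}).Finite := by
    refine Set.finite_iUnion (fun i => ?_)
    exact fin_bad s hs _ (he2 g (z i) (hwg.trans (hZ _ (hzZ i))))
  obtain ⟨K, hK⟩ := hfin.bddAbove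
  obtain ⟨k, hk, hk2⟩ := hwn Z.card z hz hzw (fun i j => eps (z i) j) (K + 1)
  refine ⟨k, fun y hy j => ?_⟩
  have hy2 : y ∈ Set.range z := by
    have : Set.range (Z.orderEmbOfFin rfl) = (Z : Set W) := Z.range_orderEmbOfFin rfl
    change y ∈ Set.range (Z.orderEmbOfFin rfl)
    rw [this]
    exact hy
  obtain ⟨i, rfl⟩ := hy2
  have hagree : e (z i) (s k j) = e g (s k j) := by
    by_contra hne
    have : k ≤ K := hK (Set.mem_iUnion.2 ⟨i, j, hg' k j, hne⟩)
    omega
  unfold F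
  rw [hagree]
  exact hk2 i j

end

end Pool.Agent.H60.CP
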