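import Pool.Agent.H60.CP.HS

set_option autoImplicit false

namespace Pool.Agent.H60.CP

open Set Filter Topology

section
variable {W : Type} [LinearOrder W] [OmegaOne W]

/-- The rows of the matrix as continuous functions. -/
noncomputable def yf (c r : W → ℕ → Bool) (e : W → W → ℕ) (a : W) : Sp c r e → ℝ :=
  fun z => if F c r e z a = true then 1 else 0

theorem yf_cont (c r : W → ℕ → Bool) (e : W → W → ℕ) (a : W) : Continuous (yf c r e a) := by
  have h1 : Continuous (Phi c r e) := continuous_induced_dom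
  have h2 : Continuous (fun z : Sp c r e => (Phi c r e z).1 a) :=
    (continuous_apply a).comp (continuous_fst.comp h1)
  have h3 : Continuous (fun b : Bool => if b = true then (1 : ℝ) else 0) :=
    continuous_of_discreteTopology
  exact h3.comp h2

theorem exists_gt' (w : W) : ∃ z : W, w < z := by
  obtain ⟨z, hz⟩ := bdd (Set.countable_singleton w)
  exact ⟨z, hz w rfl⟩

theorem ns {c r : W → ℕ → Bool} {e : W → W → ℕ} (D : Data c r e) (u : ℕ → W)
    (hu : Function.Injective u) (g : Sp c r e → ℝ) :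
    ¬ Tendsto (fun k => yf c r e (u k)) atTop (𝓝 g) := by
  intro hT
  have hK : ∀ K : ℕ, ∃ w : W, ∀ Z : Finset W, (∀ z ∈ Z, w < z) → ∀ eps : W → Unit → Bool,
      ∃ k, ∀ z ∈ Z, ∀ j, F c r e z (u (K + k)) = eps z j := by
    intro K
    refine key D.luz D.e1 D.e2 (J := Unit) (fun k _ => u (K + k)) ?_ 0 ?_
    · intro k k' j j' h
      have := hu h
      exact ⟨by omega, Subsingleton.elim _ _⟩
    · intro k j j' h
      exact (h (Subsingleton.elim _ _)).elim
  choose w hw using hK
  obtain ⟨w0, hw0⟩ := bdd (Set.countable_range w)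
  have h1 : ∀ (K : ℕ) (b : Bool), ∃ k, F c r e w0 (u (K + k)) = b := by
    intro K b
    obtain ⟨k, hk⟩ := hw K {w0} (by
      intro z hz
      rw [Finset.mem_singleton] at hz
      subst hz
      exact hw0 _ ⟨K, rfl⟩) (fun _ _ => b)
    exact ⟨k, hk w0 (Finset.mem_singleton_self _) ()⟩
  have h2 : Tendsto (fun k => yf c r e (u k) w0) atTop (𝓝 (g w0)) :=
    (tendsto_pi_nhds.1 hT) w0
  rw [Metric.tendsto_atTop] at h2
  obtain ⟨K, hK⟩ := h2 (1 / 2) (by norm_num)
  obtain ⟨k1, hk1⟩ := h1 K true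
  obtain ⟨k2, hk2⟩ := h1 K false
  have e1 := hK (K + k1) (by omega)
  have e2 := hK (K + k2) (by omega)
  rw [Real.dist_eq] at e1 e2
  have v1 : yf c r e (u (K + k1)) w0 = 1 := by
    unfold yf
    rw [hk1]
    simp
  have v2 : yf c r e (u (K + k2)) w0 = 0 := by
    unfold yf
    rw [hk2]
    simp
  rw [v1] at e1
  rw [v2] at e2
  rw [abs_lt] at e1 e2
  linarith [e1.1, e1.2, e2.1, e2.2]

theorem ns_evtl {c r : W → ℕ → Bool} {e : W → W → ℕ} (D : Data c r e)
    (v : ℕ → Sp c r e → ℝ) (hv : ∀ n, v n ∈ Set.range (yf c r e)) (g : Sp c r e → ℝ)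
    (hT : Tendsto v atTop (𝓝 g)) : ∀ᶠ n in atTop, v n = g := by
  classical
  by_contra hcon
  rw [Filter.not_eventually] at hcon
  obtain ⟨φ, hφ, hφ2⟩ := Filter.extraction_of_frequently_atTop hcon
  choose a ha using fun k => hv (φ k)
  have hT2 : Tendsto (fun k => v (φ k)) atTop (𝓝 g) := hT.comp hφ.tendsto_atTop
  -- each value is taken finitely often
  have hfin : ∀ b : W, {k | a k = b}.Finite := by
    intro b
    by_contra hinf
    have hfreq : ∃ᶠ k in atTop, a k = b := Nat.frequently_atTop_iff_infinite.2 hinf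
    obtain ⟨ψ, hψ, hψ2⟩ := Filter.extraction_of_frequently_atTop hfreq
    have h1 : Tendsto (fun k => v (φ (ψ k))) atTop (𝓝 g) := hT2.comp hψ.tendsto_atTop
    have h2 : (fun k => v (φ (ψ k))) = fun _ => yf c r e b := by
      funext k
      rw [← ha (ψ k), hψ2 k]
    rw [h2] at h1
    have h3 : yf c r e b = g := tendsto_nhds_unique tendsto_const_nhds h1
    apply hφ2 (ψ 0)
    rw [← ha (ψ 0), hψ2 0]
    exact h3
  obtain ⟨ψ, _, hψ2⟩ := exists_seq_of_forall_finset_exists
    (fun _ : ℕ => True) (fun k k' => k < k' ∧ a k ≠ a k') (by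
      intro s _
      have hbad : (⋃ k ∈ s, ({k' | a k' = a k} ∪ Set.Iic k)).Finite :=
        Set.Finite.biUnion s.finite_toSet (fun k _ => (hfin _).union (Set.finite_Iic k))
      obtain ⟨k', hk'⟩ := hbad.exists_notMem
      refine ⟨k', trivial, fun k hk => ?_⟩
      have : k' ∉ ({k' | a k' = a k} ∪ Set.Iic k : Set ℕ) := fun h =>
        hk' (Set.mem_iUnion₂.2 ⟨k, hk, h⟩)
      rw [Set.mem_union, not_or] at this
      exact ⟨not_le.1 this.2, fun h => this.1 h.symm⟩)
  have hmono : StrictMono ψ := strictMono_nat_of_lt_succ (fun n => (hψ2 n (n + 1) (Nat.lt_succ_self n)).1)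
  have hinj : Function.Injective (fun k => a (ψ k)) := by
    intro k k' h
    by_contra hne
    rcases lt_or_gt_of_ne hne with hlt | hlt
    · exact (hψ2 k k' hlt).2 h
    · exact (hψ2 k' k hlt).2 h.symm
  refine ns D (fun k => a (ψ k)) hinj g ?_
  have h1 : Tendsto (fun k => v (φ (ψ k))) atTop (𝓝 g) := hT2.comp hmono.tendsto_atTop
  refine h1.congr (fun k => ?_)
  exact (ha (ψ k)).symm

theorem yf_unc {c r : W → ℕ → Bool} {e : W → W → ℕ} (D : Data c r e) :
    ¬ (Set.range (yf c r e)).Countable := by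
  intro hc
  have hU : ¬ (Set.univ : Set W).Countable := OmegaOne.unc
  have : Countable (Set.range (yf c r e)) := hc.to_subtype
  obtain ⟨⟨f, hf⟩, hX⟩ := pig hU (fun a => (⟨yf c r e a, ⟨a, rfl⟩⟩ : Set.range (yf c r e)))
  have hinf : {a | a ∈ Set.univ ∧ (⟨yf c r e a, ⟨a, rfl⟩⟩ : Set.range (yf c r e)) = ⟨f, hf⟩}.Infinite :=
    fun h => hX h.countable
  let u := hinf.natEmbedding
  refine ns D (fun k => (u k : W)) (fun k k' h => u.injective (Subtype.ext h)) f ?_
  have : (fun k => yf c r e (u k : W)) = fun _ => f := by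
    funext k
    exact congrArg Subtype.val (u k).2.2
  rw [this]
  exact tendsto_const_nhds

end

end Pool.Agent.H60.CP
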