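import Pool.Agent.H60.CP.Final

set_option autoImplicit false

namespace Pool.Agent.H60.CP

open Set Filter Topology Cardinal

theorem not_seqSep_reflect {X : Type} (S : Set (X → ℝ)) (hS : ¬ SeqSep S) :
    ∃ y : Om1 → X → ℝ, (∀ a, y a ∈ S) ∧ ¬ SeqSep (Set.range y) := by
  classical
  have hcon : ∀ C ⊆ S, C.Countable → ∃ f ∈ S, ¬ ∃ u : ℕ → X → ℝ,
      (∀ n, u n ∈ C) ∧ Tendsto u atTop (𝓝 f) := by
    intro C hC hC2
    by_contra h
    push Not at h
    exact hS ⟨C, hC, hC2, h⟩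
  obtain ⟨y, hy⟩ := wfrec (W := Om1) (Y := X → ℝ)
    (fun w g f => g '' (Set.Iio w) ⊆ S → f ∈ S ∧ ¬ ∃ u : ℕ → X → ℝ,
      (∀ n, u n ∈ g '' (Set.Iio w)) ∧ Tendsto u atTop (𝓝 f))
    (by
      intro w g g' y hgg h hg'
      have : g '' (Set.Iio w) = g' '' (Set.Iio w) := Set.image_congr (fun v hv => hgg v hv)
      rw [← this] at hg' ⊢
      exact h hg')
    (by
      intro w g
      by_cases h : g '' (Set.Iio w) ⊆ S
      · obtain ⟨f, hf⟩ := hcon _ h ((OmegaOne.cIio w).image g)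
        exact ⟨f, fun _ => hf⟩
      · exact ⟨fun _ => 0, fun h' => (h h').elim⟩)
  have hyS : ∀ w, y w ∈ S := by
    intro w
    induction w using WellFoundedLT.induction with
    | ind w ih =>
      refine (hy w ?_).1
      rintro _ ⟨v, hv, rfl⟩
      exact ih v hv
  refine ⟨y, hyS, ?_⟩
  rintro ⟨C, hC, hCc, hlim⟩
  have hch : ∀ f : X → ℝ, ∃ a : Om1, f ∈ C → y a = f := by
    intro f
    by_cases hf : f ∈ C
    · obtain ⟨a, ha⟩ := hC hf
      exact ⟨a, fun _ => ha⟩
    · obtain ⟨w0⟩ : Nonempty Om1 := by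
        by_contra hne
        rw [not_nonempty_iff] at hne
        exact OmegaOne.unc (W := Om1) (Set.countable_univ)
      exact ⟨w0, fun h => (hf h).elim⟩
  choose a ha using hch
  obtain ⟨w, hw⟩ := bdd (hCc.image a)
  obtain ⟨u, hu, hT⟩ := hlim (y w) ⟨w, rfl⟩
  refine (hy w ?_).2 ⟨u, fun n => ?_, hT⟩
  · rintro _ ⟨v, _, rfl⟩
    exact hyS v
  · exact ⟨a (u n), hw _ ⟨u n, hu n, rfl⟩, ha _ (hu n)⟩

theorem inducing_comp {X Y : Type} (p : X → Y) (hp : Function.Surjective p) :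
    Topology.IsInducing (fun f : Y → ℝ => f ∘ p) := by
  constructor
  have h1 : (TopologicalSpace.induced (fun f : Y → ℝ => f ∘ p) Pi.topologicalSpace) =
      ⨅ x : X, TopologicalSpace.induced (fun f : Y → ℝ => f (p x)) inferInstance := by
    simp only [Pi.topologicalSpace, induced_iInf, induced_compose]
    rfl
  rw [h1]
  exact (hp.iInf_comp (fun y => TopologicalSpace.induced (fun f : Y → ℝ => f y)
    inferInstance)).symm

theorem reduction :
    (∀ (X : Type) [TopologicalSpace X] [T35Space X], CpHS X → CpHSS X) ↔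
      ∀ Z : Set (Om1 → ℝ), CpHS Z → SeqSep (Set.range (fun (a : Om1) (z : Z) => z.1 a)) := by
  classical
  constructor
  · intro h Z hZ
    refine h Z hZ _ ?_
    rintro _ ⟨a, rfl⟩
    exact (continuous_apply a).comp continuous_subtype_val
  · intro h X _ _ hX S hS
    by_contra hcon
    obtain ⟨y, hyS, hy⟩ := not_seqSep_reflect S hcon
    let Z : Set (Om1 → ℝ) := Set.range (fun (x : X) (a : Om1) => y a x)
    let p : X → Z := fun x => ⟨fun a => y a x, ⟨x, rfl⟩⟩
    have hpc : Continuous p := by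
      refine Continuous.subtype_mk ?_ _
      exact continuous_pi (fun a => hS _ (hyS a))
    have hps : Function.Surjective p := by
      rintro ⟨_, ⟨x, rfl⟩⟩
      exact ⟨x, rfl⟩
    have hind := inducing_comp p hps
    have hinj : Function.Injective (fun f : Z → ℝ => f ∘ p) := hps.injective_comp_right
    have hZ : CpHS Z := by
      intro T hT
      obtain ⟨D, hDT, hDc, hD⟩ := hX ((fun f : Z → ℝ => f ∘ p) '' T) (by
        rintro _ ⟨f, hf, rfl⟩
        exact (hT f hf).comp hpc)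
      refine ⟨T ∩ (fun f : Z → ℝ => f ∘ p) ⁻¹' D, Set.inter_subset_left, ?_, ?_⟩
      · refine Set.Countable.mono Set.inter_subset_right ?_
        exact hDc.preimage_of_injOn hinj.injOn
      · intro f hf
        rw [hind.closure_eq_preimage_closure_image]
        have h1 : f ∘ p ∈ closure D := hD ⟨f, hf, rfl⟩
        refine closure_mono ?_ h1
        intro g hg
        obtain ⟨f', hf', rfl⟩ := hDT hg
        exact ⟨f', ⟨hf', hg⟩, rfl⟩
    obtain ⟨C, hC, hCc, hlim⟩ := h Z hZ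
    apply hy
    refine ⟨(fun f : Z → ℝ => f ∘ p) '' C, ?_, hCc.image _, ?_⟩
    · rintro _ ⟨f, hf, rfl⟩
      obtain ⟨a, rfl⟩ := hC hf
      exact ⟨a, rfl⟩
    · rintro _ ⟨a, rfl⟩
      obtain ⟨u, hu, hT⟩ := hlim _ ⟨a, rfl⟩
      refine ⟨fun n => u n ∘ p, fun n => ⟨u n, hu n, rfl⟩, ?_⟩
      exact (hind.continuous.tendsto _).comp hT

end Pool.Agent.H60.CP
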